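import Mathlib
import Pool.Agent.Helper34.LF.St

set_option autoImplicit false

/-! Project LF, module CL23. -/

open Finset Pool.Agent.Helper34.LF

namespace Pool.Agent.Helper19.LF

theorem pairs {α : Type} [DecidableEq α] {a a' c c' : α} (ha : a ≠ a')
    (h : ({a, a'} : Finset α) = {c, c'}) : (c = a ∧ c' = a') ∨ (c = a' ∧ c' = a) := by
  have h1 : a ∈ ({c, c'} : Finset α) := by rw [← h]; simp
  have h2 : a' ∈ ({c, c'} : Finset α) := by rw [← h]; simp
  simp only [mem_insert, mem_singleton] at h1 h2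
  rcases h1 with h1 | h1 <;> rcases h2 with h2 | h2
  · exact absurd (h1.trans h2.symm) ha
  · exact Or.inl ⟨h1.symm, h2.symm⟩
  · exact Or.inr ⟨h2.symm, h1.symm⟩
  · exact absurd (h1.trans h2.symm) ha

theorem pairL {N : ℕ} {a a' : VA N} {b b' : VB N} (ha : a ≠ a') (hb : b ≠ b')
    (h : Gd {a, a'} {b, b'} ∨ Sc {a, a'} {b, b'}) :
    (b.1 a.1 + b'.1 a.1) + (b.1 a'.1 + b'.1 a'.1) = 1 ∨ Sp a a' b b' := by
  have hc : ({a, a'} : Finset (VA N)).card = 2 := card_pair ha
  rcases h with (⟨h1, _⟩ | ⟨h1, _⟩ | ⟨_, _, hp⟩) | (⟨hB, _⟩ | ⟨h1, _⟩ | ⟨c, c', d, d', _, _, hX, hY, hs⟩)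
  · omega
  · omega
  · left
    unfold par at hp
    rw [sum_pair ha, sum_pair hb, sum_pair hb] at hp
    exact hp
  · have := hB.1
    omega
  · rw [h1] at hc
    simp at hc
  · right
    obtain ⟨s1, s2, s3⟩ := hs
    rcases pairs ha hX with ⟨rfl, rfl⟩ | ⟨rfl, rfl⟩ <;>
      rcases pairs hb hY with ⟨rfl, rfl⟩ | ⟨rfl, rfl⟩
    · exact ⟨s1, s2, s3⟩
    · refine ⟨s1, ?_, ?_⟩
      · rw [add_comm]; exact s2
      · rw [s3, add_comm d.1, add_comm d.2]
    · refine ⟨s1.symm, ?_, ?_⟩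
      · rw [← s1]; exact s2
      · rw [add_comm, s3, s1]
    · refine ⟨s1.symm, ?_, ?_⟩
      · rw [← s1, add_comm]; exact s2
      · rw [add_comm, s3, s1, add_comm d.1, add_comm d.2]

theorem fin4 : ∀ k l : Fin 4, l = k ∨ l = k + 1 ∨ l = k + 2 ∨ l = k + 3 := by decide

theorem z3 : ∀ x y z : ZMod 2, x + y = 1 → x + z = 1 → y + z = 1 → False := by decide

theorem z2 : ∀ x y z : ZMod 2, x = y ∨ x = z ∨ y = z := by decide

theorem zoff : ∀ x y z : ZMod 2, x = 0 → y = 0 → x + y + z = 0 → z = 0 := by decide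

theorem zeq : ∀ x y : ZMod 2, x + y = 0 → x = y := by decide

theorem pCL23 : StCL23 := by
  intro N _ X Y hX hY h
  obtain ⟨a, a', haa, rfl⟩ := card_eq_two.1 hX
  obtain ⟨b, c, d, hbc, hbd, hcd, rfl⟩ := card_eq_three.1 hY
  have e1 : ({b, c, d} : Finset (VB N)).erase d = {b, c} := by
    ext x
    simp only [mem_erase, mem_insert, mem_singleton]
    constructor
    · rintro ⟨h1, h2 | h2 | h2⟩
      · exact Or.inl h2
      · exact Or.inr h2
      · exact absurd h2 h1
    · rintro (rfl | rfl)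
      · exact ⟨hbd, Or.inl rfl⟩
      · exact ⟨hcd, Or.inr (Or.inl rfl)⟩
  have e2 : ({b, c, d} : Finset (VB N)).erase c = {b, d} := by
    ext x
    simp only [mem_erase, mem_insert, mem_singleton]
    constructor
    · rintro ⟨h1, h2 | h2 | h2⟩
      · exact Or.inl h2
      · exact absurd h2 h1
      · exact Or.inr h2
    · rintro (rfl | rfl)
      · exact ⟨hbc, Or.inl rfl⟩
      · exact ⟨hcd.symm, Or.inr (Or.inr rfl)⟩
  have e3 : ({b, c, d} : Finset (VB N)).erase b = {c, d} := by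
    ext x
    simp only [mem_erase, mem_insert, mem_singleton]
    constructor
    · rintro ⟨h1, h2 | h2 | h2⟩
      · exact absurd h2 h1
      · exact Or.inl h2
      · exact Or.inr h2
    · rintro (rfl | rfl)
      · exact ⟨hbc.symm, Or.inr (Or.inl rfl)⟩
      · exact ⟨hbd.symm, Or.inr (Or.inr rfl)⟩
  have p1 := h d (by simp)
  have p2 := h c (by simp)
  have p3 := h b (by simp)
  rw [e1] at p1
  rw [e2] at p2
  rw [e3] at p3
  have q1 := pairL haa hbc p1
  have q2 := pairL haa hbd p2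
  have q3 := pairL haa hcd p3
  by_cases hk : a.1 = a'.1
  · have no : ∀ u v : VB N, ¬ ((u.1 a.1 + v.1 a.1) + (u.1 a'.1 + v.1 a'.1) = 1) := by
      intro u v hu
      rw [← hk, CharTwo.add_self_eq_zero] at hu
      exact absurd hu (by decide)
    have s1 := q1.resolve_left (no b c)
    have s2 := q2.resolve_left (no b d)
    have s3 := q3.resolve_left (no c d)
    obtain ⟨-, o1, t1⟩ := s1
    obtain ⟨-, o2, t2⟩ := s2
    obtain ⟨-, o3, t3⟩ := s3
    have r12 := t1.symm.trans t2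
    have r13 := t1.symm.trans t3
    rw [Prod.mk.injEq] at r12 r13
    obtain ⟨u12, v12⟩ := r12
    obtain ⟨u13, v13⟩ := r13
    unfold pr at u12 u13
    rw [Prod.mk.injEq] at u12 u13
    simp only [Pi.add_apply] at u12 u13
    have hcd2 : c.2 = d.2 := by
      have := neg_injective v12
      exact add_left_cancel this
    have hbd2 : b.2 = d.2 := by
      have := neg_injective v13
      rw [add_comm c.2 d.2] at this
      exact add_right_cancel this
    have x1 : c.1 (a.1 + 1) = d.1 (a.1 + 1) := add_left_cancel u12.1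
    have x2 : c.1 (a.1 + 2) = d.1 (a.1 + 2) := add_left_cancel u12.2
    have y1 : b.1 (a.1 + 1) = d.1 (a.1 + 1) := by
      have := u13.1
      rw [add_comm (c.1 _) (d.1 _)] at this
      exact add_right_cancel this
    have y2 : b.1 (a.1 + 2) = d.1 (a.1 + 2) := by
      have := u13.2
      rw [add_comm (c.1 _) (d.1 _)] at this
      exact add_right_cancel this
    unfold off at o2 o3
    simp only [Pi.add_apply] at o2 o3
    have x3 : c.1 (a.1 + 3) = d.1 (a.1 + 3) := by
      apply zeq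
      apply zoff _ _ _ ?_ ?_ o3
      · rw [x1, CharTwo.add_self_eq_zero]
      · rw [x2, CharTwo.add_self_eq_zero]
    have y3 : b.1 (a.1 + 3) = d.1 (a.1 + 3) := by
      apply zeq
      apply zoff _ _ _ ?_ ?_ o2
      · rw [y1, CharTwo.add_self_eq_zero]
      · rw [y2, CharTwo.add_self_eq_zero]
    have ext : ∀ u v : VB N, u.2 = v.2 → u.1 a.1 = v.1 a.1 → u.1 (a.1 + 1) = v.1 (a.1 + 1) →
        u.1 (a.1 + 2) = v.1 (a.1 + 2) → u.1 (a.1 + 3) = v.1 (a.1 + 3) → u = v := by
      intro u v h0 h1 h2 h3 h4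
      refine Prod.ext (funext fun l => ?_) h0
      rcases fin4 a.1 l with rfl | rfl | rfl | rfl
      · exact h1
      · exact h2
      · exact h3
      · exact h4
    rcases z2 (b.1 a.1) (c.1 a.1) (d.1 a.1) with e | e | e
    · exact hbc (ext b c (hbd2.trans hcd2.symm) e (y1.trans x1.symm) (y2.trans x2.symm)
        (y3.trans x3.symm))
    · exact hbd (ext b d hbd2 e y1 y2 y3)
    · exact hcd (ext c d hcd2 e x1 x2 x3)
  · have r1 := q1.resolve_right (fun s => hk s.1)
    have r2 := q2.resolve_right (fun s => hk s.1)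
    have r3 := q3.resolve_right (fun s => hk s.1)
    apply z3 (b.1 a.1 + b.1 a'.1) (c.1 a.1 + c.1 a'.1) (d.1 a.1 + d.1 a'.1)
    · rw [← r1]; ring
    · rw [← r2]; ring
    · rw [← r3]; ring

end Pool.Agent.Helper19.LF
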